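import Pool.Agent.ISB.StmtsB

/-!
# ISB, row DOP: the operators on the dual of the graded Lie ring
-/

set_option autoImplicit false

namespace Pool.Agent.ISB.H47

open scoped Classical commutatorElement

attribute [local instance 100] LieRing.ofAssociativeRing LieAlgebra.ofAssociativeAlgebra

variable {P : Type} [Group P] {F : Type} [Field F]

theorem mem_Dl {f : ℕ → P → F} : f ∈ Dl P F ↔
    ∀ j, (∀ x ∈ gm P j, ∀ y ∈ gm P j, f j (x * y) = f j x + f j y) ∧
      (∀ x ∈ gm P (j + 1), f j x = 0) ∧ ∀ x, x ∉ gm P j → f j x = 0 := Iff.rfl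

theorem Dop_pos {a j : ℕ} {x g : P} (f : ℕ → P → F) (hg : g ∈ gm P j) :
    Dop P F a x f j g = f (j + a + 1) ⁅x, g⁆ := if_pos hg

theorem Dop_neg {a j : ℕ} {x g : P} (f : ℕ → P → F) (hg : g ∉ gm P j) :
    Dop P F a x f j g = 0 := if_neg hg

/-- two elements with equal values on commutators have the same operator -/
theorem isD_congr {a : ℕ} {x y : P} {T : Module.End F (Dl P F)} (h : IsD P F a x T)
    (hy : y ∈ gm P a)
    (he : ∀ f : Dl P F, ∀ j, ∀ g ∈ gm P j, (f : ℕ → P → F) (j + a + 1) ⁅x, g⁆ =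
      (f : ℕ → P → F) (j + a + 1) ⁅y, g⁆) : IsD P F a y T := by
  refine ⟨hy, fun f => ?_⟩
  rw [h.2 f]
  funext j g
  by_cases hg : g ∈ gm P j
  · rw [Dop_pos _ hg, Dop_pos _ hg]
    exact he f j g hg
  · rw [Dop_neg _ hg, Dop_neg _ hg]

/-- **DOP** -/
theorem dop (hGmc : GmcStmt) (hGid : GidStmt) : DopStmt := by
  intro P _ F _ _
  obtain ⟨hc, hanti, hconj, -, htop⟩ := hGmc P
  have hcom : ∀ a j, ∀ x ∈ gm P a, ∀ g ∈ gm P j, ⁅x, g⁆ ∈ gm P (j + a + 1) := by
    intro a j x hx g hg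
    have h := hc a j x hx g hg
    rwa [add_comm a j] at h
  have hvan : ∀ (f : Dl P F) (a j : ℕ), ∀ x ∈ gm P (a + 1), ∀ g ∈ gm P j,
      (f : ℕ → P → F) (j + a + 1) ⁅x, g⁆ = 0 := by
    intro f a j x hx g hg
    refine (mem_Dl.1 f.2 (j + a + 1)).2.1 _ ?_
    exact hcom (a + 1) j x hx g hg
  have hmap : ∀ a, ∀ x ∈ gm P a, ∀ f ∈ Dl P F, Dop P F a x f ∈ Dl P F := by
    intro a x hx f hf
    obtain ⟨-, -, h3, -, -, -⟩ := hGid P F f hf
    refine mem_Dl.2 fun j => ⟨fun y hy z hz => ?_, fun y hy => ?_, fun y hy => ?_⟩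
    · rw [Dop_pos f (mul_mem hy hz), Dop_pos f hy, Dop_pos f hz]
      exact h3 a j x hx y hy z hz
    · have hy' : y ∈ gm P j := hanti j (j + 1) (Nat.le_succ j) hy
      rw [Dop_pos f hy']
      refine (mem_Dl.1 hf (j + a + 1)).2.1 _ ?_
      have h := hcom a (j + 1) x hx y hy
      have e : j + 1 + a + 1 = j + a + 1 + 1 := by omega
      rwa [e] at h
    · exact Dop_neg f hy
  refine ⟨?_, ?_, ?_, ?_, ?_, ?_, ?_, ?_⟩
  · intro a x hx
    exact ⟨(Dop P F a x).restrict (hmap a x hx), hx, fun f => rfl⟩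
  · intro a x T U hT hU
    refine LinearMap.ext fun f => Subtype.ext ?_
    rw [hT.2 f, hU.2 f]
  · intro a x y T U hT hU
    refine ⟨mul_mem hT.1 hU.1, fun f => ?_⟩
    obtain ⟨-, -, -, h4, -, -⟩ := hGid P F f f.2
    have e : (((T + U) f : Dl P F) : ℕ → P → F) = ((T f : Dl P F) : ℕ → P → F) +
      ((U f : Dl P F) : ℕ → P → F) := rfl
    rw [e, hT.2 f, hU.2 f]
    funext j g
    show Dop P F a x f j g + Dop P F a y f j g = Dop P F a (x * y) f j g
    by_cases hg : g ∈ gm P j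
    · rw [Dop_pos _ hg, Dop_pos _ hg, Dop_pos _ hg]
      exact (h4 a j x hT.1 y hU.1 g hg).symm
    · rw [Dop_neg _ hg, Dop_neg _ hg, Dop_neg _ hg, add_zero]
  · intro a x T hT
    refine isD_congr hT (inv_mem hT.1) fun f j g hg => ?_
    obtain ⟨h1, -, -, h4, -, -⟩ := hGid P F f f.2
    have h := h4 a j x hT.1 x⁻¹ (inv_mem hT.1) g hg
    rw [mul_inv_cancel, commutatorElement_one_left, h1] at h
    exact CharTwo.add_eq_zero.1 h.symm
  · intro a
    refine ⟨one_mem _, fun f => ?_⟩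
    obtain ⟨h1, -, -, -, -, -⟩ := hGid P F f f.2
    funext j g
    show (0 : F) = Dop P F a 1 f j g
    by_cases hg : g ∈ gm P j
    · rw [Dop_pos _ hg, commutatorElement_one_left, h1]
    · rw [Dop_neg _ hg]
  · intro a x T hT hx
    refine LinearMap.ext fun f => Subtype.ext ?_
    rw [hT.2 f]
    funext j g
    show Dop P F a x f j g = 0
    by_cases hg : g ∈ gm P j
    · rw [Dop_pos _ hg]
      exact hvan f a j x hx g hg
    · rw [Dop_neg _ hg]
  · intro a x T g hT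
    refine isD_congr hT (hconj a x hT.1 g) fun f j h hh => ?_
    obtain ⟨-, -, -, h4, -, -⟩ := hGid P F f f.2
    have hgx : ⁅g, x⁆ ∈ gm P (a + 1) := by
      have h0 : g ∈ gm P 0 := by rw [htop]; trivial
      have := hcom 0 a g h0 x hT.1
      rwa [add_zero] at this
    have e : g * x * g⁻¹ = ⁅g, x⁆ * x := by
      rw [commutatorElement_def]; group
    rw [e, h4 a j ⁅g, x⁆ (hanti a (a + 1) (Nat.le_succ a) hgx) x hT.1 h hh,
      hvan f a j _ hgx h hh, zero_add]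
  · intro a b x y T U hT hU
    refine ⟨hc a b x hT.1 y hU.1, fun f => ?_⟩
    obtain ⟨-, -, -, -, h5, -⟩ := hGid P F f f.2
    have e : ((⁅T, U⁆ f : Dl P F) : ℕ → P → F) = ((T (U f) : Dl P F) : ℕ → P → F) -
      ((U (T f) : Dl P F) : ℕ → P → F) := rfl
    rw [e, hT.2 (U f), hU.2 (T f)]
    funext j g
    show Dop P F a x (U f : Dl P F) j g - Dop P F b y (T f : Dl P F) j g =
      Dop P F (a + b + 1) ⁅x, y⁆ f j g
    by_cases hg : g ∈ gm P j
    · rw [Dop_pos _ hg, Dop_pos _ hg, Dop_pos _ hg, hU.2 f, hT.2 f,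
        Dop_pos _ (hcom a j x hT.1 g hg), Dop_pos _ (hcom b j y hU.1 g hg)]
      have e1 : j + a + 1 + b + 1 = j + a + b + 2 := by omega
      have e2 : j + b + 1 + a + 1 = j + a + b + 2 := by omega
      have e3 : j + (a + b + 1) + 1 = j + a + b + 2 := by omega
      rw [e1, e2, e3, h5 a b j x hT.1 y hU.1 g hg, CharTwo.sub_eq_add, add_comm]
    · rw [Dop_neg _ hg, Dop_neg _ hg, Dop_neg _ hg, sub_zero]

end Pool.Agent.ISB.H47
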